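import Mathlib
import Pool.Agent.LBS.S3

/-!
Almost primes of the form `n ^ 2 + s ^ 2` with `s < n`, in short intervals of `s`, for every `n > 1`.
-/

set_option autoImplicit false

namespace Pool.Agent.Results.MP_2fff8e_nt.AlmostPrimes

open Finset Polynomial

/-- the residue classes `a` modulo `q` with `n ^ 2 + a ^ 2 = 0` -/
private noncomputable def R (n q : ℕ) : Finset ℕ :=
  (range q).filter (fun a => ((n : ZMod q) ^ 2 + (a : ZMod q) ^ 2) = 0)

private theorem card_R (n q : ℕ) (hq : q.Prime) : (R n q).card ≤ 2 := by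
  classical
  have hf : Fact q.Prime := ⟨hq⟩
  let P : (ZMod q)[X] := C 1 * X ^ 2 + C 0 * X + C ((n : ZMod q) ^ 2)
  have hP : P ≠ 0 := by
    intro h
    have h1 : P.coeff 2 = 0 := by rw [h, coeff_zero]
    have h2 : P.coeff 2 = 1 := by
      have h3 : (C ((n : ZMod q) ^ 2) : (ZMod q)[X]).coeff 2 = 0 := coeff_C_of_ne_zero (by norm_num)
      have h4 : (C (1 : ZMod q) * X ^ 2 : (ZMod q)[X]).coeff 2 = 1 := by
        rw [coeff_C_mul, coeff_X_pow, if_pos rfl, mul_one]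
      have h5 : (C (0 : ZMod q) * X : (ZMod q)[X]).coeff 2 = 0 := by
        rw [coeff_C_mul, zero_mul]
      rw [show P = C 1 * X ^ 2 + C 0 * X + C ((n : ZMod q) ^ 2) from rfl, coeff_add, coeff_add,
        h3, h4, h5, add_zero, add_zero]
    rw [h2] at h1
    exact one_ne_zero h1
  have hdeg : P.natDegree ≤ 2 := natDegree_quadratic_le
  have h1 : (R n q).card ≤ P.roots.toFinset.card := by
    apply Finset.card_le_card_of_injOn (fun a : ℕ => (a : ZMod q))
    · intro a ha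
      have ha2 := (Finset.mem_filter.1 ha).2
      simp only [Finset.mem_coe, Multiset.mem_toFinset, mem_roots hP, IsRoot.def]
      simp only [P, eval_add, eval_mul, eval_C, eval_pow, eval_X]
      linear_combination ha2
    · intro a ha b hb hab
      have h1 : a < q := mem_range.1 (Finset.mem_filter.1 ha).1
      have h2 : b < q := mem_range.1 (Finset.mem_filter.1 hb).1
      have h3 : (a : ZMod q) = (b : ZMod q) := hab
      rw [ZMod.natCast_eq_natCast_iff] at h3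
      unfold Nat.ModEq at h3
      rwa [Nat.mod_eq_of_lt h1, Nat.mod_eq_of_lt h2] at h3
  calc (R n q).card ≤ P.roots.toFinset.card := h1
    _ ≤ P.roots.card := Multiset.toFinset_card_le _
    _ ≤ P.natDegree := card_roots' P
    _ ≤ 2 := hdeg

private theorem ssub_R (n q : ℕ) (hq : q.Prime) : R n q ⊂ range q := by
  classical
  refine (Finset.filter_subset _ _).ssubset_of_ne fun h => ?_
  have hc : (R n q).card = q := by
    have : (R n q) = range q := h
    rw [this, card_range]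
  have h2 := card_R n q hq
  have hq2 : q = 2 := le_antisymm (by omega) hq.two_le
  subst hq2
  have h0 : (0 : ℕ) ∈ R n 2 := by
    have : (R n 2) = range 2 := h
    rw [this]; simp
  have h1 : (1 : ℕ) ∈ R n 2 := by
    have : (R n 2) = range 2 := h
    rw [this]; simp
  have e0 := (Finset.mem_filter.1 h0).2
  have e1 := (Finset.mem_filter.1 h1).2
  simp only [Nat.cast_zero, Nat.cast_one] at e0 e1
  have e2 : (1 : ZMod 2) = 0 := by linear_combination e1 - e0
  exact one_ne_zero e2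

private theorem not_dvd {n x q : ℕ} (hq : q.Prime) (h : x % q ∉ R n q) :
    ¬ q ∣ n ^ 2 + x ^ 2 := by
  intro hd
  apply h
  unfold R
  rw [Finset.mem_filter]
  refine ⟨mem_range.2 (Nat.mod_lt _ hq.pos), ?_⟩
  have h1 : ((x % q : ℕ) : ZMod q) = (x : ZMod q) := by
    rw [ZMod.natCast_eq_natCast_iff]
    exact Nat.mod_modEq x q
  rw [h1]
  have h2 : ((n ^ 2 + x ^ 2 : ℕ) : ZMod q) = 0 := (ZMod.natCast_eq_zero_iff _ _).2 hd
  rw [Nat.cast_add, Nat.cast_pow, Nat.cast_pow] at h2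
  exact h2

/-- the number of prime factors of an integer without small prime factors -/
private theorem card_factors {m : ℕ} (hm : m ≠ 0) {z : ℝ} (hz : 0 ≤ z)
    (h : ∀ p : ℕ, p.Prime → p ∣ m → z < p) : z ^ m.primeFactorsList.length ≤ m := by
  have key : ∀ l : List ℕ, (∀ p ∈ l, z < (p : ℝ)) → z ^ l.length ≤ (l.prod : ℝ) := by
    intro l
    induction l with
    | nil => intro _; simp
    | cons a t ih =>
      intro hl
      rw [List.length_cons, List.prod_cons, pow_succ, Nat.cast_mul, mul_comm]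
      have h1 := ih fun p hp => hl p (List.mem_cons_of_mem _ hp)
      have h2 := (hl a List.mem_cons_self).le
      exact mul_le_mul h2 h1 (pow_nonneg hz _) (hz.trans h2)
  have h1 := key m.primeFactorsList fun p hp =>
    h p (Nat.prime_of_mem_primeFactorsList hp) (Nat.dvd_of_mem_primeFactorsList hp)
  rwa [Nat.prod_primeFactorsList hm] at h1

/-- For every `ε > 0` there are `δ > 0` and `r` such that for every `n > 1` and every interval
`(A, A + n ^ ε]` inside `(0, n)` there is an integer `s` in this interval for which all prime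
factors of `n ^ 2 + s ^ 2` exceed `n ^ δ`; in particular `n ^ 2 + s ^ 2` has at most `r` prime
factors, counted with multiplicity. -/
theorem result : ∀ ε : ℝ, 0 < ε → ∃ δ : ℝ, 0 < δ ∧ ∃ r : ℕ, ∀ n : ℕ, 1 < n → ∀ A : ℕ,
    (A : ℝ) + (n : ℝ) ^ ε < n →
    ∃ s : ℕ, A < s ∧ (s : ℝ) ≤ A + (n : ℝ) ^ ε ∧ s < n ∧
      (∀ p : ℕ, p.Prime → p ∣ n ^ 2 + s ^ 2 → (n : ℝ) ^ δ < p) ∧
      (n ^ 2 + s ^ 2).primeFactorsList.length ≤ r := by
  intro ε hε
  obtain ⟨B, hB1, hB⟩ := Pool.Agent.LBS.sieve_two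
  have hB0 : (0 : ℝ) < B := by exact_mod_cast hB1
  set δ : ℝ := ε / B with hδ
  have hδ0 : 0 < δ := div_pos hε hB0
  refine ⟨δ, hδ0, ⌊3 / δ⌋₊, fun n hn A hA => ?_⟩
  have hn1 : (1 : ℝ) < n := by exact_mod_cast hn
  have hn0 : (0 : ℝ) < n := by linarith
  have hone : (1 : ℝ) ≤ (n : ℝ) ^ ε := Real.one_le_rpow hn1.le hε.le
  -- existence of `x`
  obtain ⟨x, hx1, hx2, hprime⟩ : ∃ x : ℕ, A < x ∧ (x : ℝ) ≤ A + (n : ℝ) ^ ε ∧
      ∀ p : ℕ, p.Prime → p ∣ n ^ 2 + x ^ 2 → (n : ℝ) ^ δ < p := by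
    by_cases h2 : (n : ℝ) ^ δ < 2
    · refine ⟨A + 1, by omega, by push_cast; linarith, fun p hp _ => ?_⟩
      have : (2 : ℝ) ≤ p := by exact_mod_cast hp.two_le
      linarith
    · have h2' : (2 : ℝ) ≤ (n : ℝ) ^ δ := not_lt.1 h2
      set y : ℕ := ⌊(n : ℝ) ^ δ⌋₊ with hy
      have hy2 : 2 ≤ y := Nat.le_floor (by exact_mod_cast h2')
      obtain ⟨t, ht1, ht2, ht3⟩ := hB y hy2 (R n)
        (fun q hq _ => ⟨ssub_R n q hq, card_R n q hq⟩) A
      have hyB : ((y ^ B : ℕ) : ℝ) ≤ (n : ℝ) ^ ε := by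
        have h3 : (y : ℝ) ≤ (n : ℝ) ^ δ := Nat.floor_le (by positivity)
        calc ((y ^ B : ℕ) : ℝ) = (y : ℝ) ^ B := by push_cast; ring
          _ ≤ ((n : ℝ) ^ δ) ^ B := pow_le_pow_left₀ (Nat.cast_nonneg _) h3 _
          _ = (n : ℝ) ^ (δ * B) := by rw [Real.rpow_mul hn0.le, Real.rpow_natCast]
          _ = (n : ℝ) ^ ε := by rw [hδ, div_mul_cancel₀ _ hB0.ne']
      refine ⟨t, ht1, ?_, fun p hp hd => ?_⟩
      · have h4 : (t : ℝ) ≤ (A : ℝ) + ((y ^ B : ℕ) : ℝ) := by exact_mod_cast ht2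
        linarith
      · by_contra hlt
        have h5 : (p : ℝ) ≤ (n : ℝ) ^ δ := not_lt.1 hlt
        have h6 : p ≤ y := Nat.le_floor h5
        exact not_dvd hp (ht3 p hp h6) hd
  have hxn : x < n := by
    have : (x : ℝ) < n := by linarith
    exact_mod_cast this
  refine ⟨x, hx1, hx2, hxn, hprime, ?_⟩
  have hm0 : n ^ 2 + x ^ 2 ≠ 0 := by
    have : 0 < n ^ 2 := by positivity
    omega
  have h7 := card_factors hm0 (by positivity : (0 : ℝ) ≤ (n : ℝ) ^ δ) hprime
  have h8 : ((n ^ 2 + x ^ 2 : ℕ) : ℝ) ≤ (n : ℝ) ^ (3 : ℝ) := by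
    have h9 : n ^ 2 + x ^ 2 ≤ n ^ 3 := by
      have h10 : x ^ 2 ≤ n ^ 2 := Nat.pow_le_pow_left hxn.le 2
      have h11 : 2 * n ^ 2 ≤ n * n ^ 2 := Nat.mul_le_mul_right _ hn
      have h12 : n ^ 3 = n * n ^ 2 := by ring
      omega
    calc ((n ^ 2 + x ^ 2 : ℕ) : ℝ) ≤ ((n ^ 3 : ℕ) : ℝ) := by exact_mod_cast h9
      _ = (n : ℝ) ^ (3 : ℝ) := by
          rw [Nat.cast_pow]
          norm_cast
  set L := (n ^ 2 + x ^ 2).primeFactorsList.length with hL
  have h10 : (n : ℝ) ^ (δ * L) ≤ (n : ℝ) ^ (3 : ℝ) := by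
    rw [Real.rpow_mul hn0.le, Real.rpow_natCast]
    exact h7.trans h8
  have h11 : δ * L ≤ 3 := (Real.rpow_le_rpow_left_iff hn1).1 h10
  apply Nat.le_floor
  rw [le_div_iff₀ hδ0]
  linarith

end Pool.Agent.Results.MP_2fff8e_nt.AlmostPrimes
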