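import Pool.Agent.MPC.G1

/-!
Large prime factors of `n ^ 2 + s ^ 2`, `s < n`, for all but few `n`.
-/

set_option autoImplicit false

namespace Pool.Agent.Results.MP_2fff8e_nt.LargePrimeFactor

open Finset MPC
open scoped Classical

private theorem ss_eq (U : ℝ) (n A B : ℕ) : SS U n A B =
    (Ioo A B).filter (fun s => ∃ p : ℕ, p.Prime ∧ p ∣ n ^ 2 + s ^ 2 ∧ U ≤ p) := by
  ext s
  rw [mem_SS, mem_filter, mem_Ioo]
  constructor
  · rintro ⟨h, p, h1, h2, h3⟩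
    exact ⟨h, p, h1, h3, h2⟩
  · rintro ⟨h, p, h1, h3, h2⟩
    exact ⟨h, p, h1, h2, h3⟩

/-- There is an absolute constant `c > 0` such that for every `κ ∈ (0, 1]` there is `C` such that for all
`N ≥ 1`, `1 ≤ L ≤ N`, `R ≥ 1` all but at most `C R ^ 5 N ^ (1 + κ) / L` of the integers `1 ≤ n ≤ N` have this
property: every interval `(A, B)` with `0 ≤ A < B ≤ n` and length `B - A ≥ n / R` contains at least
`c κ (B - A)` integers `s` for which `n ^ 2 + s ^ 2` has a prime factor `p ≥ n ^ 2 / L`. -/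
theorem result : ∃ c : ℝ, 0 < c ∧ ∀ κ : ℝ, 0 < κ → κ ≤ 1 → ∃ C : ℝ,
    ∀ (N : ℕ) (L R : ℝ), 1 ≤ N → 1 ≤ L → L ≤ N → 1 ≤ R →
      (((Icc 1 N).filter (fun n : ℕ => ¬ ∀ A B : ℕ, A < B → B ≤ n →
          (n : ℝ) / R ≤ (B : ℝ) - A →
          c * κ * ((B : ℝ) - A) ≤ (((Ioo A B).filter (fun s => ∃ p : ℕ, p.Prime ∧
            p ∣ n ^ 2 + s ^ 2 ∧ (n : ℝ) ^ 2 / L ≤ p)).card : ℝ))).card : ℝ) ≤
        C * R ^ 5 * (N : ℝ) ^ (1 + κ) / L := by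
  obtain ⟨c, hc, h⟩ := large_factor
  refine ⟨c, hc, fun κ hκ hκ1 => ?_⟩
  obtain ⟨C, -, h1⟩ := h κ hκ hκ1
  refine ⟨C, fun N L R hN hL hLN hR => ?_⟩
  refine le_trans ?_ (h1 N L R hN hL hLN hR)
  have hsub : (Icc 1 N).filter (fun n : ℕ => ¬ ∀ A B : ℕ, A < B → B ≤ n →
        (n : ℝ) / R ≤ (B : ℝ) - A →
        c * κ * ((B : ℝ) - A) ≤ (((Ioo A B).filter (fun s => ∃ p : ℕ, p.Prime ∧
          p ∣ n ^ 2 + s ^ 2 ∧ (n : ℝ) ^ 2 / L ≤ p)).card : ℝ)) ⊆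
      (Icc 1 N).filter (fun n => Bad (c * κ) L R n) := by
    intro n hn
    rw [mem_filter] at hn ⊢
    refine ⟨hn.1, ?_⟩
    have h2 := hn.2
    push Not at h2
    obtain ⟨A, B, h3, h4, h5, h6⟩ := h2
    refine ⟨A, B, h3, h4, h5, ?_⟩
    rw [ss_eq]
    exact h6
  exact_mod_cast Finset.card_le_card hsub

end Pool.Agent.Results.MP_2fff8e_nt.LargePrimeFactor
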