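import Mathlib
import Pool.Agent.PTW.Z

/-!
For every large `n` there are many `s < n` for which `n ^ 2 + s ^ 2` has at most two prime factors.
-/

set_option autoImplicit false

namespace Pool.Agent.Results.MP_2fff8e_nt.TwoPrimeFactors

/-- There is a constant `c > 0` such that for every sufficiently large integer `n` at least
`c φ(n) / log n` integers `1 ≤ s < n` have the property that `n ^ 2 + s ^ 2` is a product of at most two
primes (counted with multiplicity), all of them greater than `n ^ (6 / 25)`. -/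
theorem result : ∃ c : ℝ, 0 < c ∧ ∃ n₀ : ℕ, ∀ n : ℕ, n₀ ≤ n →
    c * Nat.totient n / Real.log n ≤
      ({s : ℕ | 1 ≤ s ∧ s < n ∧ (n ^ 2 + s ^ 2).primeFactorsList.length ≤ 2 ∧
        ∀ p : ℕ, p.Prime → p ∣ n ^ 2 + s ^ 2 → (n : ℝ) ^ (6 / 25 : ℝ) < p}.ncard : ℝ) := by
  classical
  obtain ⟨c, hc, n₀, h⟩ := Pool.Agent.PTW.Z
  refine ⟨c, hc, n₀, fun n hn => (h n hn).trans ?_⟩
  rw [← Set.ncard_coe_finset]
  refine Nat.cast_le.2 (Set.ncard_le_ncard ?_ ?_)
  · intro s hs
    have hs' := Finset.mem_filter.1 (Finset.mem_coe.1 hs)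
    obtain ⟨h1, h2, h3⟩ := hs'
    rw [Finset.mem_Ico] at h1
    refine ⟨h1.1, h1.2, h2, fun p hp hd => ?_⟩
    have h4 := h3 p hp hd
    have h5 : (0.24 : ℝ) = 6 / 25 := by norm_num
    rwa [h5] at h4
  · exact (Set.finite_lt_nat n).subset (fun s hs => hs.2.1)

end Pool.Agent.Results.MP_2fff8e_nt.TwoPrimeFactors
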